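import Pool.Agent.Lib.MP_1c8600_lc.NegHalf
import Pool.Agent.Lib.MP_1c8600_pv.M3
import Pool.Agent.Lib.MP_1c8600_tr.All

/-!
# MP_1c8600_lc: Q1 is independent of ZFC

There are countable transitive models `V₁`, `V₂` of ZFC such that

* in `V₁` the answer to Q1 is negative: no sequence of subsets of any set has both properties (a)
  and (b)_k, for any `k ≥ 1`;
* in `V₂` the answer to Q1 is positive: every set of cardinality `2^ℵ₀` carries one sequence of
  subsets which has property (a) and property (b)_k for every `k ≥ 1`.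

The definitions used in the statement:

* `SeqIn`, `uni`, `ClassV`, `pw`, `rectZ`, `BorelV`, `projZ`, `SigmaV`, `ProjectiveV`, `CountOrd`,
  `PropAV`, `PropBV`, `Negative` (the notions of the problem inside a transitive model) in
  `Pool/Agent/Lib/MP_1c8600_lc/ModDefs.lean`;
* `SizeC`, `PositiveV` in `Pool/Agent/Lib/MP_1c8600_pv/PosMod.lean`;
* `Pool.PC.ZFCModel`, `Pool.PC.FunOn`, `Pool.PC.num` in `Pool/Agent/Lib/MP_ad72f3_pc/Pat.lean`;
* `Pool.MP_3ade05_lc.ZFModel`, `Pool.MP_3ade05_lc.Fml`, `Pool.MP_3ade05_lc.Sat` (the axioms of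
  `ZF`, with the first-order schemata) in `Pool/Agent/Lib/MP_3ade05_lc/Defs.lean`.

No hypothesis is made.
-/

set_option autoImplicit false

namespace Pool.Agent.Results.MP_1c8600_lc.Independence

open Pool.PC Pool.MP_1c8600_lc

theorem result :
    (∃ V : Set ZFSet.{0}, V.Countable ∧ (∀ x ∈ V, ∀ y ∈ x, y ∈ V) ∧ ZFCModel V ∧ Negative V) ∧
    (∃ V : Set ZFSet.{0}, V.Countable ∧ (∀ x ∈ V, ∀ y ∈ x, y ∈ V) ∧ ZFCModel V ∧
      PositiveV V) := by
  refine ⟨exists_negative, ?_⟩
  obtain ⟨V, h1, h2, h3, h4⟩ := Pool.PV.exists_model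
  exact ⟨V, h1, h2, h3, positive_of_posE h2 h3 h4⟩

end Pool.Agent.Results.MP_1c8600_lc.Independence
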